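import Pool.Agent.Q221.HO.Base

set_option autoImplicit false

namespace Pool.Agent.Q221.HO.DER1

open Matrix Pool.Agent.Q19.HO Pool.Agent.Q221.HO

variable {K : Type} [Field K] {n : ℕ}

theorem jp_eu_apply (i : Fin n) (X : Mat n K) (p q : Fin n) :
    jp (eu i : Mat n K) X p q =
      (2 : K)⁻¹ • ((if p = i then X p q else 0) + (if q = i then X p q else 0)) := by
  rw [jp_apply, eu_mul, mul_eu]

theorem half_add (h2 : (2 : K) ≠ 0) (x : Oct K) : (2 : K)⁻¹ • (x + x) = x := by
  rw [← two_smul K x, smul_smul, inv_mul_cancel₀ h2, one_smul]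

theorem half_inj (h2 : (2 : K) ≠ 0) {x y : Oct K} (h : (2 : K)⁻¹ • x = (2 : K)⁻¹ • y) :
    x = y := by
  have h3 := congrArg (fun z => (2 : K) • z) h
  simp only [smul_smul, mul_inv_cancel₀ h2, one_smul] at h3
  exact h3

theorem jp_eu_eu (h2 : (2 : K) ≠ 0) (i : Fin n) : jp (eu i : Mat n K) (eu i) = eu i := by
  funext p q
  rw [jp_eu_apply]
  have h3 : (if p = i then (eu i : Mat n K) p q else 0) = (eu i : Mat n K) p q := by
    by_cases hp : p = i
    · rw [if_pos hp]
    · rw [if_neg hp, eu_apply, if_neg (fun h => hp h.1)]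
  have h4 : (if q = i then (eu i : Mat n K) p q else 0) = (eu i : Mat n K) p q := by
    by_cases hp : q = i
    · rw [if_pos hp]
    · rw [if_neg hp, eu_apply, if_neg (fun h => hp h.2)]
  rw [h3, h4, half_add h2]

theorem jp_eu_ne (i j : Fin n) (hij : i ≠ j) : jp (eu i : Mat n K) (eu j) = 0 := by
  funext p q
  rw [jp_eu_apply, eu_apply]
  show _ = (0 : Oct K)
  have h1 : p = i → ¬(p = j ∧ q = j) := fun hp h => hij (hp.symm.trans h.1)
  have h2 : q = i → ¬(p = j ∧ q = j) := fun hq h => hij (hq.symm.trans h.2)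
  have h3 : (if p = i then (if p = j ∧ q = j then (1 : Oct K) else 0) else 0) = 0 := by
    by_cases hp : p = i
    · rw [if_pos hp, if_neg (h1 hp)]
    · rw [if_neg hp]
  have h4 : (if q = i then (if p = j ∧ q = j then (1 : Oct K) else 0) else 0) = 0 := by
    by_cases hp : q = i
    · rw [if_pos hp, if_neg (h2 hp)]
    · rw [if_neg hp]
  rw [h3, h4, add_zero, smul_zero]

theorem jp_eu_wm (i j k : Fin n) (hij : i ≠ j) (hik : i ≠ k) (w : Oct K) :
    jp (eu i : Mat n K) (wm j k w) = 0 := by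
  funext p q
  rw [jp_eu_apply]
  show _ = (0 : Oct K)
  have h1 : p = i → (wm j k w : Mat n K) p q = 0 := by
    intro hp
    rw [wm_apply, if_neg (fun h => hij (hp.symm.trans h.1)),
      if_neg (fun h => hik (hp.symm.trans h.1)), add_zero]
  have h2 : q = i → (wm j k w : Mat n K) p q = 0 := by
    intro hq
    rw [wm_apply, if_neg (fun h => hik (hq.symm.trans h.2)),
      if_neg (fun h => hij (hq.symm.trans h.2)), add_zero]
  have h3 : (if p = i then (wm j k w : Mat n K) p q else 0) = 0 := by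
    by_cases hp : p = i
    · rw [if_pos hp, h1 hp]
    · rw [if_neg hp]
  have h4 : (if q = i then (wm j k w : Mat n K) p q else 0) = 0 := by
    by_cases hp : q = i
    · rw [if_pos hp, h2 hp]
    · rw [if_neg hp]
  rw [h3, h4, add_zero, smul_zero]

/-- step 1 -/
theorem step1 (h2 : (2 : K) ≠ 0) (D : SymP n K →ₗ[K] SymP n K) (hD : IsDerP D) (i p q : Fin n)
    (hpq : (p = i ∧ q = i) ∨ (p ≠ i ∧ q ≠ i)) : (D (ee K i) : Mat n K) p q = 0 := by
  have h := hD (ee K i) (ee K i) (ee K i) (jp_eu_eu h2 i)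
  rw [jp_comm (D (ee K i) : Mat n K)] at h
  have h3 := congrFun (congrFun h p) q
  rw [Matrix.add_apply] at h3
  have h4 : jp ((ee K i : SymP n K) : Mat n K) (D (ee K i) : Mat n K) p q =
    (2 : K)⁻¹ • ((if p = i then (D (ee K i) : Mat n K) p q else 0) +
      (if q = i then (D (ee K i) : Mat n K) p q else 0)) := jp_eu_apply i _ p q
  rw [h4, ← smul_add, half_add h2] at h3
  rcases hpq with ⟨hp, hq⟩ | ⟨hp, hq⟩
  · rw [if_pos hp, if_pos hq] at h3
    have h5 := add_eq_left.1 h3
    exact h5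
  · rw [if_neg hp, if_neg hq, add_zero] at h3
    exact h3.symm

/-- step 2 -/
theorem step2 (h2 : (2 : K) ≠ 0) (D : SymP n K →ₗ[K] SymP n K) (hD : IsDerP D)
    (i j k : Fin n) (hij : i ≠ j) (hik : i ≠ k) (w : Oct K) (m : Fin n) (hm : m ≠ i) :
    (D (ww j k w) : Mat n K) i m = -((if m = k then (D (ee K i) : Mat n K) i j * w else 0) +
      (if m = j then (D (ee K i) : Mat n K) i k * star w else 0)) := by
  have h := hD (ee K i) (ww j k w) 0 (jp_eu_wm i j k hij hik w)
  rw [map_zero] at h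
  have h3 := congrFun (congrFun h i) m
  have h4 : jp ((ee K i : SymP n K) : Mat n K) (D (ww j k w) : Mat n K) i m =
    (2 : K)⁻¹ • ((if i = i then (D (ww j k w) : Mat n K) i m else 0) +
      (if m = i then (D (ww j k w) : Mat n K) i m else 0)) := jp_eu_apply i _ i m
  have h5 : jp (D (ee K i) : Mat n K) ((ww j k w : SymP n K) : Mat n K) i m =
    (2 : K)⁻¹ • (((if m = k then (D (ee K i) : Mat n K) i j * w else 0) +
      (if m = j then (D (ee K i) : Mat n K) i k * star w else 0)) +
      ((if i = j then w * (D (ee K i) : Mat n K) k m else 0) +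
      (if i = k then star w * (D (ee K i) : Mat n K) j m else 0))) := by
    rw [jp_apply]
    show (2 : K)⁻¹ • (((D (ee K i) : Mat n K) * wm j k w) i m +
      (wm j k w * (D (ee K i) : Mat n K)) i m) = _
    rw [mul_wm, wm_mul]
  rw [Matrix.add_apply, h4, h5, if_pos rfl, if_neg hm, if_neg hij, if_neg hik, add_zero, add_zero,
    add_zero, ← smul_add] at h3
  have h6 : (2 : K)⁻¹ • (((if m = k then (D (ee K i) : Mat n K) i j * w else 0) +
      (if m = j then (D (ee K i) : Mat n K) i k * star w else 0)) +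
      (D (ww j k w) : Mat n K) i m) = (2 : K)⁻¹ • (0 : Oct K) := by
    rw [smul_zero]
    exact h3
  have h7 := half_inj h2 h6
  exact eq_neg_of_add_eq_zero_right h7

/-- step 3 -/
theorem step3 (h2 : (2 : K) ≠ 0) (D : SymP n K →ₗ[K] SymP n K) (hD : IsDerP D)
    (i j k l : Fin n) (hij : i ≠ j) (hik : i ≠ k) (hil : i ≠ l) (hjk : j ≠ k) (hjl : j ≠ l)
    (hkl : k ≠ l) (w b : Oct K) :
    ((D (ee K i) : Mat n K) i j * w) * b = (D (ee K i) : Mat n K) i j * (w * b) := by
  have h := hD (ww j k w) (ww k l b) (ww j l ((2 : K)⁻¹ • (w * b))) (jp_wm_wm hjk hkl hjl w b)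
  have h3 := congrFun (congrFun h i) l
  have h4 : jp (D (ww j k w) : Mat n K) ((ww k l b : SymP n K) : Mat n K) i l =
      (2 : K)⁻¹ • ((((D (ww j k w) : Mat n K) i k * b) + 0) + (0 + 0)) := by
    rw [jp_apply]
    show (2 : K)⁻¹ • (((D (ww j k w) : Mat n K) * wm k l b) i l +
      (wm k l b * (D (ww j k w) : Mat n K)) i l) = _
    rw [mul_wm, wm_mul, if_pos rfl, if_neg hkl.symm, if_neg hik, if_neg hil]
  have h5 : jp ((ww j k w : SymP n K) : Mat n K) (D (ww k l b) : Mat n K) i l =
      (2 : K)⁻¹ • (((0 : Oct K) + 0) + (0 + 0)) := by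
    rw [jp_apply]
    show (2 : K)⁻¹ • ((wm j k w * (D (ww k l b) : Mat n K)) i l +
      ((D (ww k l b) : Mat n K) * wm j k w) i l) = _
    rw [mul_wm, wm_mul, if_neg hij, if_neg hik, if_neg hkl.symm, if_neg hjl.symm]
  rw [Matrix.add_apply, h4, h5, step2 h2 D hD i j k hij hik w k hik.symm,
    step2 h2 D hD i j l hij hil _ l hil.symm, if_pos rfl, if_neg hjk.symm, if_pos rfl,
    if_neg hjl.symm] at h3
  simp only [add_zero, smul_zero, mul_smul', neg_mul, smul_neg] at h3
  exact half_inj h2 (neg_injective h3)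

/-- step 4 -/
theorem step4 (h2 : (2 : K) ≠ 0) (D : SymP n K →ₗ[K] SymP n K) (hD : IsDerP D)
    (i j : Fin n) (hij : i ≠ j) :
    (D (ee K j) : Mat n K) i j = -(D (ee K i) : Mat n K) i j := by
  have h := hD (ee K i) (ee K j) 0 (jp_eu_ne i j hij)
  rw [map_zero, jp_comm (D (ee K i) : Mat n K)] at h
  have h3 := congrFun (congrFun h i) j
  have h4 : jp ((ee K i : SymP n K) : Mat n K) (D (ee K j) : Mat n K) i j =
    (2 : K)⁻¹ • ((if i = i then (D (ee K j) : Mat n K) i j else 0) +
      (if j = i then (D (ee K j) : Mat n K) i j else 0)) := jp_eu_apply i _ i j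
  have h5 : jp ((ee K j : SymP n K) : Mat n K) (D (ee K i) : Mat n K) i j =
    (2 : K)⁻¹ • ((if i = j then (D (ee K i) : Mat n K) i j else 0) +
      (if j = j then (D (ee K i) : Mat n K) i j else 0)) := jp_eu_apply j _ i j
  rw [Matrix.add_apply, h4, h5, if_pos rfl, if_neg hij.symm, if_neg hij, if_pos rfl, add_zero,
    zero_add, ← smul_add] at h3
  have h6 : (2 : K)⁻¹ • ((D (ee K i) : Mat n K) i j + (D (ee K j) : Mat n K) i j) =
      (2 : K)⁻¹ • (0 : Oct K) := by
    rw [smul_zero]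
    exact h3
  exact eq_neg_of_add_eq_zero_right (half_inj h2 h6)

theorem t (h : S_NUC) : Pool.Agent.Q19.HO.S_DER1 := by
  intro K _ n h2 hn D hD
  have hreal : ∀ i j : Fin n, i ≠ j → (D (ee K i) : Mat n K) i j =
      (((D (ee K i) : Mat n K) i j) 0) • (1 : Oct K) := by
    intro i j hij
    obtain ⟨k, l, hki, hkj, hli, hlj, hkl⟩ := two_more hn i j
    obtain ⟨r, hr⟩ := (h K h2 ((D (ee K i) : Mat n K) i j)).1
      (fun x y => step3 h2 D hD i j k l hij hki.symm hli.symm hkj.symm hlj.symm hkl x y)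
    rw [hr, smul_one0]
  refine ⟨fun i q => -(((D (ee K i) : Mat n K) i q) 0), ?_, ?_⟩
  · funext i q
    rw [Matrix.transpose_apply, Matrix.neg_apply]
    by_cases hiq : i = q
    · subst hiq
      rw [step1 h2 D hD i i i (Or.inl ⟨rfl, rfl⟩), zero_ap, neg_zero, neg_zero]
    · have h4 := step4 h2 D hD i q hiq
      have h5 : (D (ee K q) : Mat n K) q i = star ((D (ee K q) : Mat n K) i q) :=
        ((D (ee K q)).2 q i).symm
      have h6 : (D (ee K q) : Mat n K) q i = -(D (ee K i) : Mat n K) i q := by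
        rw [h5, h4, star_neg]
        congr 1
        rw [hreal i q hiq, star_smul_one]
      show -(((D (ee K q) : Mat n K) q i) 0) = - -(((D (ee K i) : Mat n K) i q) 0)
      rw [h6, neg_ap]
  · intro i E hE
    have hE' : E = ee K i := Subtype.ext hE
    rw [hE']
    funext p q
    rw [Matrix.sub_apply, mul_eu, eu_mul]
    by_cases hp : p = i
    · by_cases hq : q = i
      · rw [if_pos hp, if_pos hq, sub_self]
        exact step1 h2 D hD i p q (Or.inl ⟨hp, hq⟩)
      · rw [if_pos hp, if_neg hq, zero_sub]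
        subst hp
        show _ = -((-(((D (ee K p) : Mat n K) p q) 0)) • (1 : Oct K))
        rw [neg_smul, neg_neg]
        exact hreal p q (fun h' => hq h'.symm)
    · by_cases hq : q = i
      · rw [if_neg hp, if_pos hq, sub_zero]
        subst hq
        show _ = ((-(((D (ee K p) : Mat n K) p q) 0)) • (1 : Oct K))
        rw [neg_smul, ← hreal p q hp]
        exact step4 h2 D hD p q hp
      · rw [if_neg hp, if_neg hq, sub_zero]
        exact step1 h2 D hD i p q (Or.inr ⟨hp, hq⟩)

end Pool.Agent.Q221.HO.DER1
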