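import Pool.Agent.Q221.HO.DER1

set_option autoImplicit false

namespace Pool.Agent.Q221.HO.DER3

open Matrix Pool.Agent.Q19.HO Pool.Agent.Q221.HO Pool.Agent.Q221.HO.DER1

variable {K : Type} [Field K] {n : ℕ}

/-- multiplication by `e_i` -/
def je (i : Fin n) (X : SymP n K) : SymP n K := ⟨jp (eu i) (X : Mat n K), jp_mem (eu_mem i) X.2⟩

theorem je_apply (i : Fin n) (X : SymP n K) (p q : Fin n) :
    (je i X : Mat n K) p q =
      (2 : K)⁻¹ • ((if p = i then (X : Mat n K) p q else 0) +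
        (if q = i then (X : Mat n K) p q else 0)) := jp_eu_apply i (X : Mat n K) p q

theorem ww_apply (i j : Fin n) (w : Oct K) (p q : Fin n) :
    ((ww i j w : SymP n K) : Mat n K) p q = (if p = i ∧ q = j then w else 0) +
      (if p = j ∧ q = i then star w else 0) := rfl

theorem ww_self (i j : Fin n) (hij : i ≠ j) (w : Oct K) :
    ((ww i j w : SymP n K) : Mat n K) i j = w := by
  rw [ww_apply, if_pos ⟨rfl, rfl⟩, if_neg (fun h => hij h.1), add_zero]

theorem je_D (D : SymP n K →ₗ[K] SymP n K) (hD : IsDerP D)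
    (h0 : ∀ (i : Fin n) (E : SymP n K), (E : Mat n K) = eu i → D E = 0) (i : Fin n)
    (X : SymP n K) : D (je i X) = je i (D X) := by
  have h := hD (ee K i) X (je i X) rfl
  rw [h0 i (ee K i) rfl] at h
  apply Subtype.ext
  rw [← h]
  have h1 : jp ((0 : SymP n K) : Mat n K) (X : Mat n K) = 0 := by
    show (2 : K)⁻¹ • ((0 : Mat n K) * (X : Mat n K) + (X : Mat n K) * (0 : Mat n K)) = 0
    rw [Matrix.zero_mul, Matrix.mul_zero, add_zero, smul_zero]
  rw [h1, zero_add]
  rfl

theorem je_je (p q : Fin n) (hpq : p ≠ q) (X : SymP n K) :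
    je p (je q X) = ((2 : K)⁻¹ * (2 : K)⁻¹) • ww p q ((X : Mat n K) p q) := by
  apply Subtype.ext
  funext a b
  have hst : star ((X : Mat n K) p q) = (X : Mat n K) q p := X.2 q p
  have hR : (((((2 : K)⁻¹ * (2 : K)⁻¹) • ww p q ((X : Mat n K) p q) : SymP n K)) : Mat n K) a b =
      ((2 : K)⁻¹ * (2 : K)⁻¹) • ((if a = p ∧ b = q then (X : Mat n K) p q else 0) +
      (if a = q ∧ b = p then (X : Mat n K) q p else 0)) := by
    rw [← hst]
    rfl
  rw [hR, je_apply, je_apply, mul_smul]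
  congr 1
  by_cases ha : a = p
  · have ha' : ¬ a = q := fun h => hpq (ha.symm.trans h)
    by_cases hb : b = q
    · have hb' : ¬ b = p := fun h => hpq (h.symm.trans hb)
      rw [if_pos ha, if_neg hb', if_neg ha', if_pos hb, if_pos ⟨ha, hb⟩,
        if_neg (fun h => ha' h.1), zero_add, add_zero, add_zero, ha, hb]
    · have n1 : ¬(a = p ∧ b = q) := fun h => hb h.2
      have n2 : ¬(a = q ∧ b = p) := fun h => ha' h.1
      rw [if_neg ha', if_neg hb, if_neg n1, if_neg n2, add_zero,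
        smul_zero, ite_self, ite_self, add_zero]
  · by_cases hb : b = p
    · have hb' : ¬ b = q := fun h => hpq (hb.symm.trans h)
      by_cases ha' : a = q
      · rw [if_neg ha, if_pos hb, if_pos ha', if_neg hb', if_neg (fun h => ha h.1),
          if_pos ⟨ha', hb⟩, zero_add, add_zero, zero_add, ha', hb]
      · rw [if_neg ha, if_pos hb, if_neg ha', if_neg hb', if_neg (fun h => ha h.1),
          if_neg (fun h => ha' h.1), add_zero, smul_zero, add_zero]
    · rw [if_neg ha, if_neg hb, if_neg (fun h => ha h.1), if_neg (fun h => hb h.2), add_zero,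
        smul_zero]

theorem D_ww (h2 : (2 : K) ≠ 0) (D : SymP n K →ₗ[K] SymP n K) (hD : IsDerP D)
    (h0 : ∀ (i : Fin n) (E : SymP n K), (E : Mat n K) = eu i → D E = 0) (p q : Fin n)
    (hpq : p ≠ q) (X : SymP n K) :
    D (ww p q ((X : Mat n K) p q)) = ww p q ((D X : Mat n K) p q) := by
  have h := je_D D hD h0 p (je q X)
  rw [je_D D hD h0 q X, je_je p q hpq, je_je p q hpq, map_smul] at h
  have hc : ((2 : K)⁻¹ * (2 : K)⁻¹) ≠ 0 := mul_ne_zero (inv_ne_zero h2) (inv_ne_zero h2)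
  have h3 := congrArg (fun z => ((2 : K)⁻¹ * (2 : K)⁻¹)⁻¹ • z) h
  simp only [smul_smul, inv_mul_cancel₀ hc, one_smul] at h3
  exact h3

/-- the maps `d_ij` -/
def dd (D : SymP n K →ₗ[K] SymP n K) (i j : Fin n) (w : Oct K) : Oct K :=
  (D (ww i j w) : Mat n K) i j

theorem D_ww' (h2 : (2 : K) ≠ 0) (D : SymP n K →ₗ[K] SymP n K) (hD : IsDerP D)
    (h0 : ∀ (i : Fin n) (E : SymP n K), (E : Mat n K) = eu i → D E = 0) (p q : Fin n)
    (hpq : p ≠ q) (w : Oct K) :
    D (ww p q w) = ww p q (dd D p q w) := by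
  have h := D_ww h2 D hD h0 p q hpq (ww p q w)
  rw [ww_self p q hpq] at h
  exact h

theorem ww_smul (p q : Fin n) (r : K) (w : Oct K) :
    (ww p q (r • w) : SymP n K) = r • ww p q w := by
  apply Subtype.ext
  funext a b
  show (if a = p ∧ b = q then r • w else 0) + (if a = q ∧ b = p then star (r • w) else 0) =
    r • ((if a = p ∧ b = q then w else 0) + (if a = q ∧ b = p then star w else 0))
  rw [star_smul', smul_add, smul_ite, smul_ite, smul_zero]

theorem dd_smul (D : SymP n K →ₗ[K] SymP n K) (i j : Fin n) (r : K) (w : Oct K) :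
    dd D i j (r • w) = r • dd D i j w := by
  unfold dd
  rw [ww_smul, map_smul]
  rfl

theorem dd_mul (h2 : (2 : K) ≠ 0) (D : SymP n K →ₗ[K] SymP n K) (hD : IsDerP D)
    (h0 : ∀ (i : Fin n) (E : SymP n K), (E : Mat n K) = eu i → D E = 0) (i j k : Fin n)
    (hij : i ≠ j) (hjk : j ≠ k) (hik : i ≠ k) (w b : Oct K) :
    dd D i k (w * b) = dd D i j w * b + w * dd D j k b := by
  have h := hD (ww i j w) (ww j k b) (ww i k ((2 : K)⁻¹ • (w * b))) (jp_wm_wm hij hjk hik w b)
  rw [D_ww' h2 D hD h0 i j hij, D_ww' h2 D hD h0 j k hjk, D_ww' h2 D hD h0 i k hik] at h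
  have h1 : jp ((ww i j (dd D i j w) : SymP n K) : Mat n K) ((ww j k b : SymP n K) : Mat n K) =
      wm i k ((2 : K)⁻¹ • (dd D i j w * b)) := jp_wm_wm hij hjk hik _ _
  have h3 : jp ((ww i j w : SymP n K) : Mat n K) ((ww j k (dd D j k b) : SymP n K) : Mat n K) =
      wm i k ((2 : K)⁻¹ • (w * dd D j k b)) := jp_wm_wm hij hjk hik _ _
  rw [h1, h3] at h
  have h4 := congrFun (congrFun h i) k
  have h5 : ∀ v : Oct K, (wm i k v : Mat n K) i k = v := fun v => ww_self i k hik v
  rw [Matrix.add_apply, h5, h5, ww_self i k hik, dd_smul, ← smul_add] at h4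
  exact (half_inj h2 h4).symm

theorem dd_assoc (h2 : (2 : K) ≠ 0) (D : SymP n K →ₗ[K] SymP n K) (hD : IsDerP D)
    (h0 : ∀ (i : Fin n) (E : SymP n K), (E : Mat n K) = eu i → D E = 0) (i j k l : Fin n)
    (hij : i ≠ j) (hik : i ≠ k) (hil : i ≠ l) (hjk : j ≠ k) (hjl : j ≠ l) (hkl : k ≠ l)
    (w z : Oct K) : (w * dd D j k 1) * z = w * (dd D j k 1 * z) := by
  have a1 := dd_mul h2 D hD h0 i k l hik hkl hil w z
  have a2 := dd_mul h2 D hD h0 i j l hij hjl hil w z
  have a3 := dd_mul h2 D hD h0 i j k hij hjk hik w 1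
  have a4 := dd_mul h2 D hD h0 j k l hjk hkl hjl 1 z
  rw [mul_one, mul_one] at a3
  rw [one_mul, one_mul] at a4
  rw [a1, a3, a4, add_mul, mul_add, ← add_assoc] at a2
  exact add_left_cancel (add_right_cancel a2)

theorem t (h : S_NUC) : Pool.Agent.Q19.HO.S_DER3 := by
  intro K _ n h2 hn D hD h0 s X hX
  have hreal : ∀ p q : Fin n, p ≠ q → dd D p q 1 = ((dd D p q 1) 0) • (1 : Oct K) := by
    intro p q hpq
    obtain ⟨i, l, hip, hiq, hlp, hlq, hil⟩ := two_more hn p q
    obtain ⟨r, hr⟩ := (h K h2 (dd D p q 1)).2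
      (fun x y => dd_assoc h2 D hD h0 i p q l hip hiq hil hpq hlp.symm hlq.symm x y)
    rw [hr, smul_one0]
  refine ⟨fun p q => ((D X : Mat n K) p q) 0, ?_⟩
  funext p q
  show (D X : Mat n K) p q = (((D X : Mat n K) p q) 0) • (1 : Oct K)
  by_cases hpq : p = q
  · subst hpq
    exact real_of_star h2 ((D X).2 p p)
  · have h3 := D_ww h2 D hD h0 p q hpq X
    have h4 := congrArg (fun Y : SymP n K => (Y : Mat n K) p q) h3
    simp only [ww_self p q hpq] at h4
    have h5 : (X : Mat n K) p q = s p q • (1 : Oct K) := by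
      rw [hX]
      rfl
    have h6 : (D X : Mat n K) p q = (s p q * (dd D p q 1) 0) • (1 : Oct K) := by
      rw [← h4, h5]
      show dd D p q (s p q • (1 : Oct K)) = _
      rw [dd_smul, mul_smul, ← hreal p q hpq]
    rw [h6, smul_one0]

end Pool.Agent.Q221.HO.DER3
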