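import Pool.Agent.Q19.HO.Stm

set_option autoImplicit false

namespace Pool.Agent.Q221.HO

open Matrix Pool.Agent.Q19.HO

variable {K : Type} [Field K] {n : ℕ}

/-- the matrix with `w` at `(i,j)` -/
def sg (i j : Fin n) (w : Oct K) : Mat n K := fun p q => if p = i ∧ q = j then w else 0

/-- `w` at `(i,j)` and `star w` at `(j,i)` -/
def wm (i j : Fin n) (w : Oct K) : Mat n K := fun p q => sg i j w p q + sg j i (star w) p q

theorem eu_apply (i p q : Fin n) : (eu i : Mat n K) p q = if p = i ∧ q = i then 1 else 0 := by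
  show (Matrix.single i i (1 : K) p q) • (1 : Oct K) = _
  rw [Matrix.single_apply]
  by_cases h : p = i ∧ q = i
  · rw [if_pos ⟨h.1.symm, h.2.symm⟩, if_pos h, one_smul]
  · rw [if_neg (fun h' => h ⟨h'.1.symm, h'.2.symm⟩), if_neg h, zero_smul]

theorem mul_sg (X : Mat n K) (i j : Fin n) (w : Oct K) (p q : Fin n) :
    (X * sg i j w) p q = if q = j then X p i * w else 0 := by
  rw [Matrix.mul_apply]
  by_cases hq : q = j
  · rw [if_pos hq, Finset.sum_eq_single i]
    · simp [sg, hq]
    · intro m _ hm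
      simp [sg, hm]
    · intro h
      exact absurd (Finset.mem_univ i) h
  · rw [if_neg hq]
    refine Finset.sum_eq_zero fun m _ => ?_
    simp [sg, hq]

theorem sg_mul (X : Mat n K) (i j : Fin n) (w : Oct K) (p q : Fin n) :
    (sg i j w * X) p q = if p = i then w * X j q else 0 := by
  rw [Matrix.mul_apply]
  by_cases hp : p = i
  · rw [if_pos hp, Finset.sum_eq_single j]
    · simp [sg, hp]
    · intro m _ hm
      simp [sg, hm]
    · intro h
      exact absurd (Finset.mem_univ j) h
  · rw [if_neg hp]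
    refine Finset.sum_eq_zero fun m _ => ?_
    simp [sg, hp]

theorem eu_eq_sg (i : Fin n) : (eu i : Mat n K) = sg i i 1 := by
  funext p q
  rw [eu_apply]
  rfl

theorem mul_eu (X : Mat n K) (i p q : Fin n) :
    (X * (eu i : Mat n K)) p q = if q = i then X p q else 0 := by
  rw [eu_eq_sg, mul_sg]
  by_cases h : q = i
  · rw [if_pos h, if_pos h, h, mul_one]
  · rw [if_neg h, if_neg h]

theorem eu_mul (X : Mat n K) (i p q : Fin n) :
    ((eu i : Mat n K) * X) p q = if p = i then X p q else 0 := by
  rw [eu_eq_sg, sg_mul]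
  by_cases h : p = i
  · rw [if_pos h, if_pos h, h, one_mul]
  · rw [if_neg h, if_neg h]

theorem wm_eq (i j : Fin n) (w : Oct K) : wm i j w = sg i j w + sg j i (star w) := rfl

theorem mul_wm (X : Mat n K) (i j : Fin n) (w : Oct K) (p q : Fin n) :
    (X * wm i j w) p q = (if q = j then X p i * w else 0) +
      (if q = i then X p j * star w else 0) := by
  rw [wm_eq, Matrix.mul_add, Matrix.add_apply, mul_sg, mul_sg]

theorem wm_mul (X : Mat n K) (i j : Fin n) (w : Oct K) (p q : Fin n) :
    (wm i j w * X) p q = (if p = i then w * X j q else 0) +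
      (if p = j then star w * X i q else 0) := by
  rw [wm_eq, Matrix.add_mul, Matrix.add_apply, sg_mul, sg_mul]

theorem wm_apply (i j : Fin n) (w : Oct K) (p q : Fin n) :
    wm i j w p q = (if p = i ∧ q = j then w else 0) +
      (if p = j ∧ q = i then star w else 0) := rfl

theorem wm_mem (i j : Fin n) (w : Oct K) : wm i j w ∈ SymP n K := by
  intro p q
  rw [wm_apply, wm_apply, star_add]
  rw [add_comm]
  congr 1
  · by_cases h : q = j ∧ p = i
    · rw [if_pos h, if_pos ⟨h.2, h.1⟩, star_star]
    · rw [if_neg h, if_neg (fun h' => h ⟨h'.2, h'.1⟩), star_zero]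
  · by_cases h : q = i ∧ p = j
    · rw [if_pos h, if_pos ⟨h.2, h.1⟩]
    · rw [if_neg h, if_neg (fun h' => h ⟨h'.2, h'.1⟩), star_zero]

theorem eu_mem (i : Fin n) : (eu i : Mat n K) ∈ SymP n K := by
  intro p q
  rw [eu_apply, eu_apply]
  by_cases h : q = i ∧ p = i
  · rw [if_pos h, if_pos ⟨h.2, h.1⟩, star_one]
  · rw [if_neg h, if_neg (fun h' => h ⟨h'.2, h'.1⟩), star_zero]

/-- the idempotents as Hermitian matrices -/
def ee (K : Type) [Field K] {n : ℕ} (i : Fin n) : SymP n K := ⟨eu i, eu_mem i⟩

/-- `w[ij]` as a Hermitian matrix -/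
def ww (i j : Fin n) (w : Oct K) : SymP n K := ⟨wm i j w, wm_mem i j w⟩

theorem jp_comm (X Y : Mat n K) : jp X Y = jp Y X := by
  unfold jp
  rw [add_comm]

theorem jp_apply (X Y : Mat n K) (p q : Fin n) :
    jp X Y p q = (2 : K)⁻¹ • ((X * Y) p q + (Y * X) p q) := rfl

/-- the product of Hermitian matrices is Hermitian -/
theorem jp_mem {X Y : Mat n K} (hX : X ∈ SymP n K) (hY : Y ∈ SymP n K) :
    jp X Y ∈ SymP n K := by
  intro i j
  simp only [jp, Matrix.smul_apply, Matrix.add_apply, Matrix.mul_apply, star_smul', star_add,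
    star_sum, star_mul]
  rw [add_comm]
  congr 2
  · exact Finset.sum_congr rfl fun k _ => by rw [hX, hY]
  · exact Finset.sum_congr rfl fun k _ => by rw [hX, hY]

/-- `w[ij] ∘ b[jk] = (1/2) (w b)[ik]` -/
theorem jp_wm_wm {i j k : Fin n} (hij : i ≠ j) (hjk : j ≠ k) (hik : i ≠ k) (w b : Oct K) :
    jp (wm i j w) (wm j k b) = wm i k ((2 : K)⁻¹ • (w * b)) := by
  funext p q
  rw [jp_apply, mul_wm, mul_wm]
  simp only [wm_apply, star_smul', star_mul]
  have e1 : (j = i) = False := by simp [hij.symm]
  have e2 : (j = k) = False := by simp [hjk]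
  have e3 : (k = i) = False := by simp [hik.symm]
  have e4 : (k = j) = False := by simp [hjk.symm]
  have e5 : (i = j) = False := by simp [hij]
  have e6 : (i = k) = False := by simp [hik]
  by_cases hp : p = i
  · subst hp
    by_cases hq : q = k
    · subst hq
      simp [e1, e2, e3, e4, e5, e6]
    · by_cases hq2 : q = j
      · subst hq2
        simp [e1, e2, e3, e4, e5, e6]
      · by_cases hq3 : q = p
        · subst hq3
          simp [e1, e2, e3, e4, e5, e6]
        · simp [hq, hq2, hq3, e1, e2, e3, e4, e5, e6]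
  · by_cases hp2 : p = k
    · subst hp2
      by_cases hq : q = i
      · subst hq
        simp [e1, e2, e3, e4, e5, e6]
      · by_cases hq2 : q = j
        · subst hq2
          simp [e1, e2, e3, e4, e5, e6]
        · by_cases hq3 : q = p
          · subst hq3
            simp [e1, e2, e3, e4, e5, e6]
          · simp [hq, hq2, hq3, e1, e2, e3, e4, e5, e6]
    · by_cases hp3 : p = j
      · subst hp3
        by_cases hq : q = i
        · subst hq
          simp [e1, e2, e3, e4, e5, e6]
        · by_cases hq2 : q = k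
          · subst hq2
            simp [e1, e2, e3, e4, e5, e6]
          · by_cases hq3 : q = p
            · subst hq3
              simp [e1, e2, e3, e4, e5, e6]
            · simp [hq, hq2, hq3, e1, e2, e3, e4, e5, e6]
      · simp [hp, hp2, hp3]

/-- a self conjugate octonion is a scalar -/
theorem real_of_star (h2 : (2 : K) ≠ 0) {x : Oct K} (h : star x = x) : x = (x 0) • (1 : Oct K) := by
  have hz : ∀ c : K, -c = c → c = 0 := by
    intro c hc
    have h3 : (2 : K) * c = 0 := by
      calc (2 : K) * c = c + c := two_mul c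
        _ = -c + c := by rw [hc]
        _ = 0 := neg_add_cancel c
    exact (mul_eq_zero.1 h3).resolve_left h2
  have e0 : x 1 = x 0 := (star0 x).symm.trans (congrFun h 0)
  have e2 : x 2 = 0 := hz _ ((star2 x).symm.trans (congrFun h 2))
  have e3 : x 3 = 0 := hz _ ((star3 x).symm.trans (congrFun h 3))
  have e4 : x 4 = 0 := hz _ ((star4 x).symm.trans (congrFun h 4))
  have e5 : x 5 = 0 := hz _ ((star5 x).symm.trans (congrFun h 5))
  have e6 : x 6 = 0 := hz _ ((star6 x).symm.trans (congrFun h 6))
  have e7 : x 7 = 0 := hz _ ((star7 x).symm.trans (congrFun h 7))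
  apply oct_ext
  intro i
  rw [smul_ap]
  fin_cases i
  · show x 0 = x 0 * (1 : Oct K) 0
    rw [one0, mul_one]
  · show x 1 = x 0 * (1 : Oct K) 1
    rw [one1, mul_one, e0]
  · show x 2 = x 0 * (1 : Oct K) 2
    rw [one2, mul_zero, e2]
  · show x 3 = x 0 * (1 : Oct K) 3
    rw [one3, mul_zero, e3]
  · show x 4 = x 0 * (1 : Oct K) 4
    rw [one4, mul_zero, e4]
  · show x 5 = x 0 * (1 : Oct K) 5
    rw [one5, mul_zero, e5]
  · show x 6 = x 0 * (1 : Oct K) 6
    rw [one6, mul_zero, e6]
  · show x 7 = x 0 * (1 : Oct K) 7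
    rw [one7, mul_zero, e7]

theorem smul_one0 (r : K) : (r • (1 : Oct K)) 0 = r := by
  rw [smul_ap, one0, mul_one]

theorem star_smul_one (r : K) : star (r • (1 : Oct K)) = r • 1 := by
  rw [star_smul', star_one]

/-- two further indices -/
theorem two_more (hn : 4 ≤ n) (i j : Fin n) : ∃ k l : Fin n, k ≠ i ∧ k ≠ j ∧ l ≠ i ∧ l ≠ j ∧
    k ≠ l := by
  have h1 : 1 < (Finset.univ \ {i, j} : Finset (Fin n)).card := by
    have h2 : ({i, j} : Finset (Fin n)).card ≤ 2 := Finset.card_le_two
    have h3 := Finset.le_card_sdiff ({i, j} : Finset (Fin n)) Finset.univ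
    rw [Finset.card_univ, Fintype.card_fin] at h3
    omega
  obtain ⟨k, l, hk, hl, hkl⟩ := Finset.one_lt_card_iff.1 h1
  simp only [Finset.mem_sdiff, Finset.mem_univ, true_and, Finset.mem_insert,
    Finset.mem_singleton, not_or] at hk hl
  exact ⟨k, l, hk.1, hk.2, hl.1, hl.2, hkl⟩

end Pool.Agent.Q221.HO
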